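import Pool.Agent.Helper37.KD.DefsC

/-! # KD Part I, piece D4: trivial bounds for the variations -/

namespace KD.I.D4

open Finset KD

theorem he_nonneg {G : Type*} [Fintype G] [AddCommGroup G] (u : G → ℝ) (w : G) : 0 ≤ he u w :=
  Finset.sum_nonneg (fun _ _ => sq_nonneg _)

theorem he_le {G : Type*} [Fintype G] [AddCommGroup G] {u : G → ℝ} (hu : ∀ z, 0 ≤ u z) (w : G) :
    he u w ≤ 2 * ∑ z, u z := by
  have h1 : he u w ≤ ∑ z, (u (z + w) + u z) := by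
    refine Finset.sum_le_sum (fun z _ => ?_)
    have h2 := Real.sq_sqrt (hu (z + w))
    have h3 := Real.sq_sqrt (hu z)
    have h4 := mul_nonneg (Real.sqrt_nonneg (u (z + w))) (Real.sqrt_nonneg (u z))
    nlinarith
  rw [Finset.sum_add_distrib, sum_shift u w] at h1
  linarith

theorem Xk_le_two {d : ℕ} {s c0 C0 C1 : ℝ} (E : Env d s c0 C0 C1) {μ : E.G → ℝ} (hμ : IsP μ) {k : ℕ}
    (hk : k ≤ E.K) : E.Xk μ k ≤ 2 := by
  have h1 : ∀ w : E.G, he (lev E.q μ k) (xs (w.1 + w.1)) ≤ 2 := by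
    intro w
    have := he_le (fun z => E.u_nonneg hμ (k := k) (by omega) z) (xs (w.1 + w.1))
    rw [E.u_sum hμ (by omega)] at this
    linarith
  have h2 : E.Xk μ k ≤ ∑ w, E.q k w * 2 :=
    Finset.sum_le_sum (fun w _ => mul_le_mul_of_nonneg_left (h1 w) (E.q_pos hk w).le)
  rw [← Finset.sum_mul, E.q_mass hk] at h2
  linarith

theorem Xk_nonneg {d : ℕ} {s c0 C0 C1 : ℝ} (E : Env d s c0 C0 C1) (μ : E.G → ℝ) {k : ℕ}
    (hk : k ≤ E.K) : 0 ≤ E.Xk μ k :=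
  Finset.sum_nonneg (fun w _ => mul_nonneg (E.q_pos hk w).le (he_nonneg _ _))

theorem Yk_nonneg {d : ℕ} {s c0 C0 C1 : ℝ} (E : Env d s c0 C0 C1) (μ : E.G → ℝ) {k : ℕ}
    (hk : k ≤ E.K) : 0 ≤ E.Yk μ k :=
  Finset.sum_nonneg (fun w _ =>
    mul_nonneg (mul_nonneg (E.q_pos hk w).le (sq_nonneg _)) (he_nonneg _ _))

end KD.I.D4
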